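import Pool.Agent.H44.FB.Basics

/-!
# Types of values of polymorphisms (row RIG of the board `fbm_modules`)
-/

set_option autoImplicit false

namespace Pool.Agent.H15.FB

open Pool.Agent.H68.BP Pool.Agent.H58.SF Pool.Agent.H53.NR
open Pool.Agent.H53.GC (arP relP strOn sigOf)
open Pool.Agent.H53.GR (Ps Dm)
open Pool.Agent.H53.GM (Connected Avoids Val Cols DmG)
open Pool.Agent.H53.GX (FmX)
open Pool.Agent.H57.AR (tp ty Ty)
open Pool.Agent.H57.EQ (Cx)
open Pool.Agent.H57.SO (fib sigF SF)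
open Pool.Agent.H57.LH (SS vs c0 Blind NCB Cor Prs tfL SyL)
open Pool.Agent.H44.KR Pool.Agent.H44.FB
open Function Classical

theorem pf_RIG : T_RIG := by
  intro V σ ρ 𝔸 𝔹 hB ht hR hP P _ _ f hf
  set g : V → V := fun v => f (fun _ => v) with hgdef
  have hg : IsHom 𝔸 𝔸 g := fun l x hx => hf l (fun _ => x) (fun _ => hx)
  obtain ⟨c, hc⟩ := hR Unit (Fin ρ.m → Prop) (fun a => ty 𝔹 (g (a ())))
  set γ : (Fin ρ.m → Prop) → (Fin ρ.m → Prop) :=
    fun t => c ((fun _ _ => True, fun l _ => t l), fun _ _ => False) with hγ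
  have htp : ∀ v : V, tp 𝔹 (fun _ : Unit => v) = (fun _ _ => True, fun l _ => ty 𝔹 v l) := by
    intro v
    refine Prod.ext ?_ ?_
    · funext a b
      exact propext ⟨fun _ => trivial, fun _ => rfl⟩
    · funext l z
      rfl
  -- copies
  have h1 : ∀ F : Finset V, ∃ y : V → V, TpOn 𝔹 (F : Set V) id y ∧
      ∀ u ∈ F, ty 𝔹 (g (y u)) = γ (ty 𝔹 u) := by
    intro F
    obtain ⟨G', hG', h2⟩ := hc {u // u ∈ F} Subtype.val
      (fun u => ((Finite.equivFin {u // u ∈ F} u : Fin _) : ℕ)) Subtype.val_injective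
      (fun a b h => (Finite.equivFin {u // u ∈ F}).injective (Fin.ext h))
    have h4 : ∀ w (hw : w ∈ F), (if hw : w ∈ F then G' ⟨w, hw⟩ else w) = G' ⟨w, hw⟩ :=
      fun w hw => dif_pos hw
    refine ⟨fun w => if hw : w ∈ F then G' ⟨w, hw⟩ else w, ⟨?_, ?_⟩, ?_⟩
    · intro a ha b hb
      show a = b ↔ (if hw : a ∈ F then G' ⟨a, hw⟩ else a) = if hw : b ∈ F then G' ⟨b, hw⟩ else b
      rw [h4 a ha, h4 b hb]
      exact (eq_of_tp hG' ⟨a, ha⟩ ⟨b, hb⟩).symm
    · intro l z hz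
      have h5 : (fun i => if hw : z i ∈ F then G' ⟨z i, hw⟩ else z i) =
          fun i => G' ⟨z i, hz i⟩ := funext fun i => h4 _ (hz i)
      show 𝔹 l (fun i => z i) ↔ 𝔹 l (fun i => if hw : z i ∈ F then G' ⟨z i, hw⟩ else z i)
      rw [h5]
      exact (rel_of_tp hG' l fun i => ⟨z i, hz i⟩).symm
    · intro u hu
      show ty 𝔹 (g (if hw : u ∈ F then G' ⟨u, hw⟩ else u)) = γ (ty 𝔹 u)
      rw [h4 u hu]
      have h6 := h2 (fun _ => ⟨u, hu⟩)
      show ty 𝔹 (g (G' ⟨u, hu⟩)) = γ (ty 𝔹 u)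
      rw [show ty 𝔹 (g (G' ⟨u, hu⟩)) = _ from h6, hγ]
      show c (tp 𝔹 (fun _ : Unit => u), fun _ _ => _ < _) = _
      rw [htp]
      congr 2
      funext i j
      exact propext ⟨fun h => absurd h (lt_irrefl _), fun h => h.elim⟩
  have hSb : Sb 𝔸 𝔹 γ := by
    intro W _ G
    obtain ⟨y, hy, hy2⟩ := h1 (Set.finite_range G).toFinset
    have hmem : ∀ w, G w ∈ (Set.finite_range G).toFinset := fun w => by
      rw [Set.Finite.mem_toFinset]; exact ⟨w, rfl⟩
    refine ⟨fun w => g (y (G w)), ?_, fun w => hy2 _ (hmem w)⟩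
    intro l z hz
    exact hg l _ (tyi_on ht hy l (fun i => G (z i)) (fun i => hmem _) (hz ()))
  have hun : ∀ v, ty 𝔹 (g v) = γ (ty 𝔹 v) := by
    intro v
    obtain ⟨F, hF⟩ := hP v
    obtain ⟨y, hy, hy2⟩ := h1 F
    by_cases hex : ∃ u ∈ F, y u = v
    · obtain ⟨u, hu, rfl⟩ := hex
      rw [hy2 u hu]
      exact congrArg γ (tpo_ty hy (a := u) hu)
    · push Not at hex
      refine hF Unit (fun z => g (z ())) (fun l x hx => hg l _ (hx ())) γ hSb (fun _ => v)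
        (fun _ => rfl) y hy (fun _ u hu => hex u hu) (fun u hu => hy2 u hu)
  refine ⟨γ, hSb, fun x s hx => ?_⟩
  obtain ⟨p₀⟩ := (inferInstance : Nonempty P)
  obtain ⟨F, hF⟩ := hP (x p₀)
  obtain ⟨y, hy, -, hy3⟩ := amg_fin hB F ∅ (Set.empty_subset _) id id
    (Set.finite_range x).toFinset ⟨fun a ha => absurd ha (Set.notMem_empty a), fun l z hz =>
      absurd (hz ⟨0, hB.ar l⟩) (Set.notMem_empty _)⟩
  have h7 := hF P f hf γ hSb x (fun p => by rw [hx p, hx p₀]) y hy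
    (fun p u hu he => by
      obtain ⟨a, ha, -⟩ := hy3 u hu (by rw [Set.Finite.mem_toFinset]; exact ⟨p, he.symm⟩)
      exact absurd ha (Set.notMem_empty a))
    (fun u hu => by
      have h8 := hun (y u)
      rw [← tpo_ty hy (a := u) hu] at h8
      exact h8)
  rw [h7, hx p₀]

end Pool.Agent.H15.FB
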